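import Pool.Agent.H13.ProjE.Main

set_option autoImplicit false

open Cardinal Ordinal
open Pool.Agent.H13.ProjE

namespace Pool.Agent.Results.MP_17aaef_lc.Independence

/-- For every set `E` of cardinality continuum: (1) `Q1 E` holds iff every family of continuum many
subsets of `E` is contained in a countably generated sigma-algebra; (2) CH implies `Q1 E`;
(3) `Q1 E` fails if `κ ≤ 𝔠 < 2 ^ κ` and `cof (2 ^ κ) ≤ 𝔠` for some cardinal `κ`; (4) in particular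
it fails if `𝔠 = ℵ₂` and `2 ^ ℵ₁ = ℵ_{ω₂}`. -/
theorem result (E : Type) (hE : #E = 𝔠) :
    (Q1 E ↔ ∀ F : E → Set E, ∃ B : ℕ → Set E, ∀ y : E,
      @MeasurableSet E (MeasurableSpace.generateFrom (Set.range B)) (F y)) ∧
    ((𝔠 : Cardinal.{0}) = ℵ₁ → Q1 E) ∧
    (∀ κ : Cardinal.{0}, κ ≤ 𝔠 → 𝔠 < (2 : Cardinal.{0}) ^ κ →
      ((2 : Cardinal.{0}) ^ κ).ord.cof ≤ 𝔠 → ¬ Q1 E) ∧
    ((𝔠 : Cardinal.{0}) = ℵ_ 2 → (2 : Cardinal.{0}) ^ (ℵ₁ : Cardinal.{0}) = ℵ_ (ω_ 2) →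
      ¬ Q1 E) := by
  have h3 : ∀ κ : Cardinal.{0}, κ ≤ 𝔠 → 𝔠 < (2 : Cardinal.{0}) ^ κ →
      ((2 : Cardinal.{0}) ^ κ).ord.cof ≤ 𝔠 → ¬ Q1 E := by
    intro κ h1 h2 h3 hQ
    refine not_fam hE κ.out ?_ ?_ ?_ (Q1_to_fam hE hQ)
    · rw [Cardinal.mk_out]; exact h1
    · rw [Cardinal.mk_out]; exact h2
    · rw [Cardinal.mk_out]; exact h3
  refine ⟨⟨Q1_to_fam hE, fam_to_Q1 hE⟩, fun hCH => ?_, h3, ?_⟩
  · refine fam_to_Q1 hE (rect_to_fam hE ?_)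
    refine H13.Symm.equiv.1 fun Z hZ => H13.Symm.main Z hZ ?_
    have h1 := Cardinal.mk_set_le Z
    rw [Cardinal.mk_real, hCH] at h1
    exact h1
  · intro hc hp
    refine h3 ℵ₁ Cardinal.aleph_one_le_continuum ?_ ?_
    · rw [hp, hc, Cardinal.aleph_lt_aleph]
      exact (Ordinal.natCast_lt_omega0 2).trans_le (Ordinal.omega0_le_omega 2)
    · rw [hp, hc, Cardinal.ord_aleph, Ordinal.cof_omega (Cardinal.isSuccLimit_omega 2)]
      refine (Ordinal.cof_le_card _).trans ?_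
      rw [Ordinal.card_omega]

end Pool.Agent.Results.MP_17aaef_lc.Independence
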